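import Pool.Agent.W443.J6.Stms

set_option autoImplicit false

open MvPolynomial Pool.Agent.H938R2.JC Pool.Agent.W443.J5 Pool.Agent.W443.J6

namespace Pool.Agent.W240.J6

open Set Filter Topology

universe u

/-- the weight of a monomial for real weights -/
def wt (w : ℝ × ℝ) (m : Fin 2 →₀ ℕ) : ℝ := w.1 * (m 0 : ℝ) + w.2 * (m 1 : ℝ)

lemma wt_add (w u : ℝ × ℝ) (s : ℝ) (m : Fin 2 →₀ ℕ) : wt (w + s • u) m = wt w m + s * wt u m := by
  simp [wt]; ring

/-- the top weight -/
noncomputable def TW (S : Finset (Fin 2 →₀ ℕ)) (hS : S.Nonempty) (w : ℝ × ℝ) : ℝ := S.sup' hS (wt w)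

lemma TW_eq {S : Finset (Fin 2 →₀ ℕ)} (hS : S.Nonempty) {w : ℝ × ℝ} {a : Fin 2 →₀ ℕ} (ha : a ∈ S)
    (h : ∀ m ∈ S, wt w m ≤ wt w a) : TW S hS w = wt w a :=
  le_antisymm (Finset.sup'_le hS _ h) (Finset.le_sup' (wt w) ha)

lemma le_TW {S : Finset (Fin 2 →₀ ℕ)} (hS : S.Nonempty) (w : ℝ × ℝ) {a : Fin 2 →₀ ℕ} (ha : a ∈ S) :
    wt w a ≤ TW S hS w := Finset.le_sup' (wt w) ha

/-- the extreme maximiser -/
lemma extreme {S : Finset (Fin 2 →₀ ℕ)} (hS : S.Nonempty) (w u : ℝ × ℝ)
    (hdet : w.1 * u.2 - w.2 * u.1 ≠ 0) : ∃ a ∈ S, (∀ m ∈ S, wt w m ≤ wt w a) ∧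
      ∀ᶠ s in 𝓝[>] (0 : ℝ), ∀ m ∈ S, m ≠ a → wt (w + s • u) m < wt (w + s • u) a := by
  obtain ⟨a, ha, hmax⟩ := Finset.exists_max_image S (fun m => toLex (wt w m, wt u m)) hS
  have hle : ∀ m ∈ S, wt w m < wt w a ∨ (wt w m = wt w a ∧ wt u m ≤ wt u a) := by
    intro m hm
    have := hmax m hm
    rw [Prod.Lex.toLex_le_toLex] at this
    exact this
  refine ⟨a, ha, fun m hm => ?_, ?_⟩
  · rcases hle m hm with h | h
    · exact h.le
    · exact h.1.le
  · rw [Filter.eventually_all_finset]
    intro m hm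
    by_cases hma : m = a
    · exact Filter.Eventually.of_forall fun s h => absurd hma h
    · rcases hle m hm with h | h
      · have h1 : Tendsto (fun s : ℝ => (wt w a - wt w m) + s * (wt u a - wt u m)) (𝓝[>] 0)
            (𝓝 ((wt w a - wt w m) + 0 * (wt u a - wt u m))) := by
          apply Tendsto.mono_left _ nhdsWithin_le_nhds
          exact (continuous_const.add (continuous_id.mul continuous_const)).tendsto 0
        have h2 : (0 : ℝ) < (wt w a - wt w m) + 0 * (wt u a - wt u m) := by
          rw [zero_mul, add_zero]; linarith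
        filter_upwards [h1.eventually (lt_mem_nhds h2)] with s hs _
        rw [wt_add, wt_add]
        linarith
      · have h3 : wt u m < wt u a := by
          rcases lt_or_eq_of_le h.2 with h4 | h4
          · exact h4
          · exfalso
            apply hma
            have e1 : w.1 * ((m 0 : ℝ) - a 0) + w.2 * ((m 1 : ℝ) - a 1) = 0 := by
              have := h.1; unfold wt at this; linarith
            have e2 : u.1 * ((m 0 : ℝ) - a 0) + u.2 * ((m 1 : ℝ) - a 1) = 0 := by
              unfold wt at h4; linarith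
            have e3 : (w.1 * u.2 - w.2 * u.1) * ((m 0 : ℝ) - a 0) = 0 := by
              linear_combination u.2 * e1 - w.2 * e2
            have e4 : (w.1 * u.2 - w.2 * u.1) * ((m 1 : ℝ) - a 1) = 0 := by
              linear_combination w.1 * e2 - u.1 * e1
            have e5 := (mul_eq_zero.1 e3).resolve_left hdet
            have e6 := (mul_eq_zero.1 e4).resolve_left hdet
            rw [ext_iff']
            constructor
            · exact_mod_cast sub_eq_zero.1 e5
            · exact_mod_cast sub_eq_zero.1 e6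
        filter_upwards [self_mem_nhdsWithin] with s hs _
        rw [wt_add, wt_add, h.1]
        have hs' : 0 < s := hs
        nlinarith

variable {k : Type u} [Field k] [CharZero k]

/-- uniqueness of the maximisers gives parallel vectors -/
lemma par {f g : MvPolynomial (Fin 2) k} {c : k} (hJ : J f g = C c) {w : ℝ × ℝ} {a b : Fin 2 →₀ ℕ}
    (ha : a ∈ f.support) (hb : b ∈ g.support) (hau : ∀ m ∈ f.support, m ≠ a → wt w m < wt w a)
    (hbu : ∀ m ∈ g.support, m ≠ b → wt w m < wt w b) (hpos : w.1 + w.2 < wt w a + wt w b) :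
    a 0 * b 1 = a 1 * b 0 := by
  refine vertex hJ a b ?_ (mem_support_iff.1 ha) (mem_support_iff.1 hb) ?_
  · intro a' b' ha' hb' hab
    have h1 : wt w a' + wt w b' = wt w a + wt w b := by
      have e0 : (a' 0 : ℝ) + b' 0 = a 0 + b 0 := by
        have := DFunLike.congr_fun hab 0
        simp only [Finsupp.add_apply] at this
        exact_mod_cast this
      have e1 : (a' 1 : ℝ) + b' 1 = a 1 + b 1 := by
        have := DFunLike.congr_fun hab 1
        simp only [Finsupp.add_apply] at this
        exact_mod_cast this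
      unfold wt
      linear_combination w.1 * e0 + w.2 * e1
    have h2 : a' = a := by
      by_contra hne
      have h3 := hau a' (mem_support_iff.2 ha') hne
      by_cases hb2 : b' = b
      · rw [hb2] at h1; linarith
      · have h4 := hbu b' (mem_support_iff.2 hb') hb2
        linarith
    refine ⟨h2, ?_⟩
    rw [h2] at hab
    exact add_left_cancel hab
  · intro h
    have e0 : (a 0 : ℝ) + b 0 = 1 := by
      have := DFunLike.congr_fun h 0
      simp only [Finsupp.add_apply, e_zero] at this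
      exact_mod_cast this
    have e1 : (a 1 : ℝ) + b 1 = 1 := by
      have := DFunLike.congr_fun h 1
      simp only [Finsupp.add_apply, e_one] at this
      exact_mod_cast this
    have : wt w a + wt w b = w.1 + w.2 := by
      unfold wt
      linear_combination w.1 * e0 + w.2 * e1
    linarith

/-- monomials on the axes -/
lemma axes {f g : MvPolynomial (Fin 2) k} {c : k} (hJ : J f g = C c) (hc : c ≠ 0) (hG : ¬ Good f g) :
    (∃ i, 2 ≤ i ∧ e i 0 ∈ f.support) ∧ ∃ i, 2 ≤ i ∧ e 0 i ∈ f.support := by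
  constructor
  · by_contra h
    push Not at h
    exact hG (line hJ hc fun i hi => by simpa using h i hi)
  · by_contra h
    push Not at h
    exact hG (line' hJ hc fun i hi => by simpa using h i hi)

lemma TW_pos {S : Finset (Fin 2 →₀ ℕ)} (hS : S.Nonempty) {w : ℝ × ℝ}
    (h1 : ∃ i, 2 ≤ i ∧ e i 0 ∈ S) (h2 : ∃ i, 2 ≤ i ∧ e 0 i ∈ S) (hw : 0 < w.1 ∨ 0 < w.2) :
    0 < TW S hS w ∧ w.1 + w.2 < 2 * TW S hS w := by
  obtain ⟨i, hi, hi2⟩ := h1
  obtain ⟨j, hj, hj2⟩ := h2
  have a1 := le_TW hS w hi2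
  have a2 := le_TW hS w hj2
  simp only [wt, e_zero, e_one, Nat.cast_zero, mul_zero, add_zero, zero_add] at a1 a2
  have hi' : (2 : ℝ) ≤ i := by exact_mod_cast hi
  have hj' : (2 : ℝ) ≤ j := by exact_mod_cast hj
  rcases hw with hw | hw
  · have b1 : 2 * w.1 ≤ TW S hS w := by nlinarith
    rcases le_total w.2 0 with h | h
    · constructor <;> linarith
    · have b2 : 2 * w.2 ≤ TW S hS w := by nlinarith
      constructor <;> linarith
  · have b1 : 2 * w.2 ≤ TW S hS w := by nlinarith
    rcases le_total w.1 0 with h | h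
    · constructor <;> linarith
    · have b2 : 2 * w.1 ≤ TW S hS w := by nlinarith
      constructor <;> linarith

lemma TW_smul {S : Finset (Fin 2 →₀ ℕ)} (hS : S.Nonempty) (w : ℝ × ℝ) {s : ℝ} (hs : 0 ≤ s) :
    TW S hS (s • w) = s * TW S hS w := by
  obtain ⟨a, ha, hmax⟩ := Finset.exists_max_image S (wt w) hS
  have e : ∀ m, wt (s • w) m = s * wt w m := by
    intro m; simp [wt]; ring
  rw [TW_eq hS ha hmax, TW_eq hS ha (fun m hm => by rw [e, e]; exact mul_le_mul_of_nonneg_left (hmax m hm) hs), e]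

/-- the ratio is the same as in the direction `(1, 1)` -/
lemma ratio {f g : MvPolynomial (Fin 2) k} (hB : Bad f g) (hf : f.support.Nonempty)
    (hg : g.support.Nonempty) {w : ℝ × ℝ} (hw : 0 < w.1 ∨ 0 < w.2) :
    TW g.support hg w * TW f.support hf (1, 1) = TW g.support hg (1, 1) * TW f.support hf w := by
  obtain ⟨⟨c, hc, hJ⟩, hG⟩ := hB
  obtain ⟨f1, f2⟩ := axes hJ hc hG
  have hJ' : J g f = C (-c) := by rw [J_swap, hJ, C_neg]
  obtain ⟨g1, g2⟩ := axes hJ' (neg_ne_zero.2 hc) (fun h => hG h.symm)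
  have p1 := TW_pos hf f1 f2 (w := (1, 1)) (Or.inl one_pos)
  by_cases heq : w.1 = w.2
  · have hw1 : 0 < w.1 := by
      rcases hw with h | h
      · exact h
      · rw [heq]; exact h
    have e1 : w = w.1 • ((1, 1) : ℝ × ℝ) := by
      apply Prod.ext
      · simp
      · simp [heq]
    rw [e1, TW_smul hg _ hw1.le, TW_smul hf _ hw1.le]
    ring
  · obtain ⟨v, hv⟩ : ∃ v : ℝ × ℝ, v = ((1, 1) : ℝ × ℝ) - w := ⟨_, rfl⟩
    have hU : ∀ t ∈ Icc (0 : ℝ) 1, 0 < (w + t • v).1 ∨ 0 < (w + t • v).2 := by
      intro t ht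
      rcases eq_or_lt_of_le ht.2 with h | h
      · left
        rw [hv, h]; simp
      · rcases hw with h2 | h2
        · left
          rw [hv]
          simp only [Prod.fst_add, Prod.smul_fst, Prod.fst_sub, smul_eq_mul]
          nlinarith [ht.1]
        · right
          rw [hv]
          simp only [Prod.snd_add, Prod.smul_snd, Prod.snd_sub, smul_eq_mul]
          nlinarith [ht.1]
    have hcont : ∀ (S : Finset (Fin 2 →₀ ℕ)) (hS : S.Nonempty),
        Continuous (fun t : ℝ => TW S hS (w + t • v)) := by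
      intro S hS
      unfold TW
      apply Continuous.finset_sup'_apply
      intro m _
      have : (fun t : ℝ => wt (w + t • v) m) = fun t => wt w m + t * wt v m := by
        funext t; rw [wt_add]
      rw [this]
      fun_prop
    have hfp : ∀ t ∈ Icc (0 : ℝ) 1, 0 < TW f.support hf (w + t • v) := fun t ht =>
      (TW_pos hf f1 f2 (hU t ht)).1
    have key := constant_of_has_deriv_right_zero (a := 0) (b := 1)
      (f := fun t : ℝ => TW g.support hg (w + t • v) / TW f.support hf (w + t • v))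
      ((hcont _ hg).continuousOn.div (hcont _ hf).continuousOn fun t ht => (hfp t ht).ne') ?_ 1
      ⟨zero_le_one, le_rfl⟩
    · simp only [zero_smul, add_zero, one_smul] at key
      have e2 : w + v = (1, 1) := by rw [hv]; simp
      rw [e2] at key
      have q0 := hfp 0 ⟨le_rfl, zero_le_one⟩
      rw [zero_smul, add_zero] at q0
      rw [div_eq_div_iff p1.1.ne' q0.ne'] at key
      linarith
    · intro t ht
      have ht' : t ∈ Icc (0 : ℝ) 1 := ⟨ht.1, ht.2.le⟩
      have hdet : (w + t • v).1 * v.2 - (w + t • v).2 * v.1 ≠ 0 := by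
        have : (w + t • v).1 * v.2 - (w + t • v).2 * v.1 = w.1 - w.2 := by
          rw [hv]
          simp only [Prod.fst_add, Prod.smul_fst, Prod.fst_sub, smul_eq_mul, Prod.snd_add,
            Prod.smul_snd, Prod.snd_sub]
          ring
        rw [this]
        exact sub_ne_zero.2 heq
      obtain ⟨a, ha, hamax, haev⟩ := extreme hf _ _ hdet
      obtain ⟨b, hb, hbmax, hbev⟩ := extreme hg _ _ hdet
      have hsmall : ∀ᶠ s in 𝓝[>] (0 : ℝ), s < 1 - t :=
        (tendsto_id.mono_left nhdsWithin_le_nhds).eventually (gt_mem_nhds (by linarith [ht.2]))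
      have hall := (haev.and hbev).and (hsmall.and self_mem_nhdsWithin)
      have hassoc : ∀ s : ℝ, w + t • v + s • v = w + (t + s) • v := by
        intro s; rw [add_smul, add_assoc]
      have hcon : ∀ s : ℝ, ((∀ m ∈ f.support, m ≠ a → wt (w + t • v + s • v) m < wt (w + t • v + s • v) a) ∧
          (∀ m ∈ g.support, m ≠ b → wt (w + t • v + s • v) m < wt (w + t • v + s • v) b)) →
          (s < 1 - t ∧ 0 < s) →
          TW f.support hf (w + (t + s) • v) = wt (w + (t + s) • v) a ∧
          TW g.support hg (w + (t + s) • v) = wt (w + (t + s) • v) b ∧ a 0 * b 1 = a 1 * b 0 := by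
        rintro s ⟨h1, h2⟩ ⟨h3, h4⟩
        rw [hassoc] at h1 h2
        have hts : t + s ∈ Icc (0 : ℝ) 1 := ⟨by linarith [ht.1], by linarith⟩
        have e1 : TW f.support hf (w + (t + s) • v) = wt (w + (t + s) • v) a := by
          apply TW_eq hf ha
          intro m hm
          by_cases hma : m = a
          · rw [hma]
          · exact (h1 m hm hma).le
        have e2 : TW g.support hg (w + (t + s) • v) = wt (w + (t + s) • v) b := by
          apply TW_eq hg hb
          intro m hm
          by_cases hma : m = b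
          · rw [hma]
          · exact (h2 m hm hma).le
        refine ⟨e1, e2, ?_⟩
        have q1 := (TW_pos hf f1 f2 (hU _ hts)).2
        have q2 := (TW_pos hg g1 g2 (hU _ hts)).2
        exact par hJ ha hb h1 h2 (by rw [← e1, ← e2]; linarith)
      obtain ⟨s0, hs0⟩ := hall.exists
      have hpar := (hcon s0 hs0.1 hs0.2).2.2
      have hpar' : (a 0 : ℝ) * b 1 = a 1 * b 0 := by exact_mod_cast hpar
      have hcross : ∀ x y : ℝ × ℝ, wt x b * wt y a = wt y b * wt x a := by
        intro x y
        unfold wt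
        linear_combination (x.1 * y.2 - x.2 * y.1) * (-hpar')
      have hTf : TW f.support hf (w + t • v) = wt (w + t • v) a := TW_eq hf ha hamax
      have hTg : TW g.support hg (w + t • v) = wt (w + t • v) b := TW_eq hg hb hbmax
      obtain ⟨δ, hδ, hsub⟩ := mem_nhdsGT_iff_exists_Ioo_subset.1 hall
      have hev : (fun t : ℝ => TW g.support hg (w + t • v) / TW f.support hf (w + t • v)) =ᶠ[𝓝[Ici t] t]
          fun _ => TW g.support hg (w + t • v) / TW f.support hf (w + t • v) := by
        have hδ' : 0 < δ := hδ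
        filter_upwards [Ico_mem_nhdsGE (show t < t + δ by linarith)] with x hx
        rcases eq_or_lt_of_le hx.1 with h | h
        · rw [h]
        · have hs := hsub (show x - t ∈ Ioo 0 δ from ⟨by linarith, by linarith [hx.2]⟩)
          obtain ⟨r1, r2, -⟩ := hcon (x - t) hs.1 hs.2
          rw [add_sub_cancel] at r1 r2
          have hx1 : x ∈ Icc (0 : ℝ) 1 := ⟨by linarith [ht.1], by linarith [hs.2.1]⟩
          rw [div_eq_div_iff (hfp x hx1).ne' (hfp t ht').ne', r1, r2, hTf, hTg]
          exact hcross _ _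
      exact (hasDerivWithinAt_const t (Ici t) _).congr_of_eventuallyEq hev rfl

omit [CharZero k] in
lemma top_TW {f : MvPolynomial (Fin 2) k} (hf : f.support.Nonempty) {w0 w1 d : ℤ} (h : Top w0 w1 d f) :
    TW f.support hf ((w0 : ℝ), (w1 : ℝ)) = d := by
  obtain ⟨h1, m, hm, hmd⟩ := h
  have e : ∀ m : Fin 2 →₀ ℕ, wt ((w0 : ℝ), (w1 : ℝ)) m = ((w0 * (m 0 : ℤ) + w1 * (m 1 : ℤ) : ℤ) : ℝ) := by
    intro m; simp [wt]
  rw [TW_eq hf (mem_support_iff.2 hm), e, hmd]
  intro m' hm'
  rw [e, e, hmd]
  exact_mod_cast h1 m' (mem_support_iff.1 hm')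

/-- Ratio of the top weights. -/
theorem rat : S_RAT.{u} := by
  intro k _ _ f g hB w0 w1 v0 v1 d d' δ δ' hw hv h1 h2 h3 h4
  have hf : f.support.Nonempty := by
    obtain ⟨-, m, hm, -⟩ := h1
    exact ⟨m, mem_support_iff.2 hm⟩
  have hg : g.support.Nonempty := by
    obtain ⟨-, m, hm, -⟩ := h2
    exact ⟨m, mem_support_iff.2 hm⟩
  have r1 := ratio hB hf hg (w := ((w0 : ℝ), (w1 : ℝ))) (by
    rcases hw with h | h
    · exact Or.inl (show (0 : ℝ) < (w0 : ℝ) by exact_mod_cast h)
    · exact Or.inr (show (0 : ℝ) < (w1 : ℝ) by exact_mod_cast h))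
  have r2 := ratio hB hf hg (w := ((v0 : ℝ), (v1 : ℝ))) (by
    rcases hv with h | h
    · exact Or.inl (show (0 : ℝ) < (v0 : ℝ) by exact_mod_cast h)
    · exact Or.inr (show (0 : ℝ) < (v1 : ℝ) by exact_mod_cast h))
  rw [top_TW hf h1, top_TW hg h2] at r1
  rw [top_TW hf h3, top_TW hg h4] at r2
  have hB' := hB
  obtain ⟨⟨c, hc, hJ⟩, hG⟩ := hB
  obtain ⟨f1, f2⟩ := axes hJ hc hG
  have p1 := (TW_pos hf f1 f2 (w := (1, 1)) (Or.inl one_pos)).1
  have e : ((d : ℝ) * δ' - d' * δ) * TW f.support hf (1, 1) = 0 := by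
    linear_combination (d : ℝ) * r2 - (δ : ℝ) * r1
  have e2 := (mul_eq_zero.1 e).resolve_right p1.ne'
  have e3 : (d : ℝ) * δ' = d' * δ := sub_eq_zero.1 e2
  exact_mod_cast e3

end Pool.Agent.W240.J6
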